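import Pool.Agent.H94.EGC.S1

/-!
# EGC: rows SL1, SL2, SL3, SL4 (slices)
-/

set_option autoImplicit false

namespace Pool.EGC

namespace H52

open MvPolynomial Pool.EGH

theorem mem_Mo {m : ℕ} (c : Fin m → Bool) (d : ℕ) (x : Fin m → ℕ) :
    x ∈ Mo c d ↔ ∑ i, x i = d ∧ ∀ i, c i = true → x i ≤ 1 := by
  classical
  unfold Mo
  rw [Finset.mem_filter, Finset.mem_piAntidiag]
  unfold Cp
  constructor
  · rintro ⟨⟨h1, _⟩, h2⟩
    exact ⟨h1, h2⟩
  · rintro ⟨h1, h2⟩
    exact ⟨⟨h1, fun i _ => Finset.mem_univ i⟩, h2⟩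

theorem mem_up {m : ℕ} (c : Fin m → Bool) (d : ℕ) (A : Finset (Fin m → ℕ)) (y : Fin m → ℕ) :
    y ∈ up c d A ↔ y ∈ Mo c (d + 1) ∧ ∃ x ∈ A, ∃ i, y = x + Pi.single i 1 := by
  classical
  unfold up
  rw [Finset.mem_filter]

/-- the vector with its entry at `i` taken out and put back -/
theorem ins_rem {m : ℕ} (i : Fin (m + 1)) (y : Fin (m + 1) → ℕ) :
    (i.insertNth (y i) (fun j => y (i.succAbove j)) : Fin (m + 1) → ℕ) = y := by
  funext k
  rcases Fin.eq_self_or_eq_succAbove i k with h | ⟨j, h⟩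
  · subst h
    simp
  · subst h
    simp

theorem mem_sl {m : ℕ} (i : Fin (m + 1)) (t : ℕ) (A : Finset (Fin (m + 1) → ℕ))
    (x : Fin m → ℕ) : x ∈ sl i t A ↔ (i.insertNth t x : Fin (m + 1) → ℕ) ∈ A := by
  classical
  unfold sl
  rw [Finset.mem_image]
  constructor
  · rintro ⟨y, hy, rfl⟩
    rw [Finset.mem_filter] at hy
    obtain ⟨hy, hyt⟩ := hy
    subst hyt
    rw [ins_rem]
    exact hy
  · intro h
    refine ⟨_, Finset.mem_filter.2 ⟨h, by simp⟩, ?_⟩
    funext j
    simp

theorem sum_ins {m : ℕ} (i : Fin (m + 1)) (t : ℕ) (x : Fin m → ℕ) :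
    ∑ k, (i.insertNth t x : Fin (m + 1) → ℕ) k = t + ∑ j, x j := by
  rw [Fin.sum_univ_succAbove _ i]
  simp

theorem caps_ins {m : ℕ} (c : Fin (m + 1) → Bool) (i : Fin (m + 1)) (t : ℕ) (x : Fin m → ℕ) :
    (∀ k, c k = true → (i.insertNth t x : Fin (m + 1) → ℕ) k ≤ 1) ↔
      (c i = true → t ≤ 1) ∧ ∀ j, (c ∘ i.succAbove) j = true → x j ≤ 1 := by
  constructor
  · intro h
    refine ⟨fun hi => ?_, fun j hj => ?_⟩
    · have := h i hi
      simpa using this
    · have := h (i.succAbove j) hj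
      simpa using this
  · rintro ⟨h1, h2⟩ k hk
    rcases Fin.eq_self_or_eq_succAbove i k with h | ⟨j, h⟩
    · subst h
      simpa using h1 hk
    · subst h
      simpa using h2 j hk

theorem ins_Mo {m : ℕ} (c : Fin (m + 1) → Bool) (i : Fin (m + 1)) (d t : ℕ) (x : Fin m → ℕ) :
    (i.insertNth t x : Fin (m + 1) → ℕ) ∈ Mo c d ↔
      t ≤ d ∧ (c i = true → t ≤ 1) ∧ x ∈ Mo (c ∘ i.succAbove) (d - t) := by
  rw [mem_Mo, mem_Mo, sum_ins, caps_ins]
  constructor
  · rintro ⟨h1, h2, h3⟩
    exact ⟨by omega, h2, by omega, h3⟩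
  · rintro ⟨h0, h2, h1, h3⟩
    exact ⟨by omega, h2, h3⟩

theorem ins_inj {m : ℕ} (i : Fin (m + 1)) (t : ℕ) (x y : Fin m → ℕ)
    (h : (i.insertNth t x : Fin (m + 1) → ℕ) = i.insertNth t y) : x = y := by
  funext j
  have := congrFun h (i.succAbove j)
  simpa using this

theorem t_sl1 : SL1Stmt := by
  classical
  intro m c d i A hA
  refine ⟨fun t x => mem_sl i t A x, ?_, ?_, ?_, ?_⟩
  · intro t _ x hx
    have h := hA ((mem_sl i t A x).1 hx)
    exact ((ins_Mo c i d t x).1 h).2.2
  · intro t ht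
    rw [Finset.eq_empty_iff_forall_notMem]
    intro x hx
    have h := hA ((mem_sl i t A x).1 hx)
    have := ((ins_Mo c i d t x).1 h).1
    omega
  · intro hc t ht
    rw [Finset.eq_empty_iff_forall_notMem]
    intro x hx
    have h := hA ((mem_sl i t A x).1 hx)
    have := ((ins_Mo c i d t x).1 h).2.1 hc
    omega
  · have hmaps : ∀ x ∈ A, x i ∈ Finset.range (d + 1) := by
      intro x hx
      have h := (mem_Mo c d x).1 (hA hx)
      rw [Finset.mem_range]
      have h2 : x i ≤ ∑ k, x k := Finset.single_le_sum (fun k _ => Nat.zero_le _)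
        (Finset.mem_univ i)
      omega
    rw [Finset.card_eq_sum_card_fiberwise hmaps]
    refine Finset.sum_congr rfl fun t _ => ?_
    unfold sl
    rw [Finset.card_image_of_injOn]
    intro x hx y hy hxy
    rw [Finset.mem_coe, Finset.mem_filter] at hx hy
    rw [← ins_rem i x, ← ins_rem i y, hx.2, hy.2]
    simp only at hxy
    rw [hxy]

theorem t_sl2 : SL2Stmt := by
  intro m c i
  refine ⟨?_, ?_, fun d t x => ins_Mo c i d t x⟩
  · intro h j k hjk hk
    exact h _ _ ((Fin.strictMono_succAbove i).monotone hjk) hk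
  · intro t x y
    constructor
    · rintro ⟨k, h1, h2⟩
      rcases Fin.eq_self_or_eq_succAbove i k with h | ⟨k', h⟩
      · subst h
        simp at h2
      · subst h
        refine ⟨k', fun j hj => ?_, by simpa using h2⟩
        have := h1 (i.succAbove j) ((Fin.strictMono_succAbove i) hj)
        simpa using this
    · rintro ⟨k, h1, h2⟩
      refine ⟨i.succAbove k, fun j hj => ?_, by simpa using h2⟩
      rcases Fin.eq_self_or_eq_succAbove i j with h | ⟨j', h⟩
      · subst h
        simp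
      · subst h
        have := h1 j' ((Fin.strictMono_succAbove i).lt_iff_lt.1 hj)
        simpa using this

theorem ins_add_self {m : ℕ} (i : Fin (m + 1)) (t : ℕ) (x : Fin m → ℕ) :
    (i.insertNth (t + 1) x : Fin (m + 1) → ℕ) =
      (i.insertNth t x : Fin (m + 1) → ℕ) + Pi.single i 1 := by
  funext k
  rcases Fin.eq_self_or_eq_succAbove i k with h | ⟨j, h⟩
  · subst h
    simp
  · subst h
    simp [Pi.single_apply, Fin.succAbove_ne]

theorem ins_add {m : ℕ} (i : Fin (m + 1)) (t : ℕ) (x : Fin m → ℕ) (k : Fin m) :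
    (i.insertNth t (x + Pi.single k 1) : Fin (m + 1) → ℕ) =
      (i.insertNth t x : Fin (m + 1) → ℕ) + Pi.single (i.succAbove k) 1 := by
  funext l
  rcases Fin.eq_self_or_eq_succAbove i l with h | ⟨j, h⟩
  · subst h
    simp [Pi.single_apply, (Fin.succAbove_ne l k).symm]
  · subst h
    simp [Pi.single_apply]

theorem t_sl3 : SL3Stmt := by
  classical
  intro m c d i A hA t ht x
  rw [mem_sl, mem_up, mem_up, ins_Mo]
  constructor
  · rintro ⟨⟨h1, _, h3⟩, a, ha, j, hj⟩
    rcases Fin.eq_self_or_eq_succAbove i j with h | ⟨k, h⟩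
    · subst h
      right
      have e1 : t = a j + 1 := by
        have := congrFun hj j
        simpa using this
      refine ⟨by omega, ?_⟩
      rw [mem_sl]
      have e2 : (j.insertNth (t - 1) x : Fin (m + 1) → ℕ) = a := by
        rw [e1, Nat.add_sub_cancel]
        rw [← ins_rem j a]
        congr 1
        · simp
        · funext k
          have := congrFun hj (j.succAbove k)
          simp [Pi.single_apply, Fin.succAbove_ne] at this
          simp [this]
      rw [e2]
      exact ha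
    · subst h
      left
      have e1 : t = a i := by
        have := congrFun hj i
        simpa [Pi.single_apply, (Fin.succAbove_ne i k).symm] using this
      have hle : a i ≤ d := by
        have h := (mem_Mo c d a).1 (hA ha)
        have h2 : a i ≤ ∑ k, a k := Finset.single_le_sum (fun k _ => Nat.zero_le _)
          (Finset.mem_univ i)
        omega
      refine ⟨by omega, ?_, fun l => a (i.succAbove l), ?_, k, ?_⟩
      · have e : d - t + 1 = d + 1 - t := by omega
        rw [e]
        exact h3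
      · rw [mem_sl, e1, ins_rem]
        exact ha
      · funext l
        have := congrFun hj (i.succAbove l)
        simp [Pi.single_apply] at this
        simp [Pi.single_apply, this]
  · rintro (⟨h1, h2, a, ha, k, hk⟩ | ⟨h1, h2⟩)
    · have e : d - t + 1 = d + 1 - t := by omega
      rw [e] at h2
      refine ⟨⟨by omega, ht, h2⟩, _, (mem_sl i t A a).1 ha, i.succAbove k, ?_⟩
      rw [hk, ins_add]
    · rw [mem_sl] at h2
      obtain ⟨s, rfl⟩ : ∃ s, t = s + 1 := ⟨t - 1, by omega⟩
      rw [Nat.add_sub_cancel] at h2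
      have h3 := (ins_Mo c i d s x).1 (hA h2)
      refine ⟨⟨by omega, ht, ?_⟩, _, h2, i, ins_add_self i s x⟩
      have e : d + 1 - (s + 1) = d - s := by omega
      rw [e]
      exact h3.2.2

theorem t_sl4 : SL4Stmt := by
  classical
  intro m c d i T hT
  refine ⟨(Mo c d).filter (fun z => (fun j => z (i.succAbove j)) ∈ T (z i)),
    Finset.filter_subset _ _, ?_⟩
  intro t ht hc
  ext x
  rw [mem_sl, Finset.mem_filter, ins_Mo]
  simp only [Fin.insertNth_apply_same, Fin.insertNth_apply_succAbove]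
  constructor
  · rintro ⟨_, h⟩
    exact h
  · intro h
    exact ⟨⟨ht, hc, hT t ht h⟩, h⟩

end H52

theorem t_sl1 (_ : MOMStmt) : SL1Stmt := H52.t_sl1

theorem t_sl2 (_ : MOMStmt) : SL2Stmt := H52.t_sl2

theorem t_sl3 (_ : MOMStmt) (_ : SL1Stmt) (_ : SL2Stmt) : SL3Stmt := H52.t_sl3

theorem t_sl4 (_ : MOMStmt) (_ : SL1Stmt) (_ : SL2Stmt) : SL4Stmt := H52.t_sl4

end Pool.EGC
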